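import Pool.Agent.Q289.BG.Stm

/-!
# Project BG (helper289), job OPN
-/

set_option autoImplicit false

namespace Pool.Agent.Q256.BG

open MeasureTheory Set Filter Topology
open scoped ENNReal InnerProductSpace
open Pool.Agent.W695.KH (Eu EV VV)
open Q289.BG

variable {ι : Type} [Fintype ι]

lemma cont_co (i : ι) : Continuous fun x : Eu ι => |x i| :=
  ((EuclideanSpace.proj i : EuclideanSpace ℝ ι →L[ℝ] ℝ).continuous).abs

lemma om_open (G : SimpleGraph ι) : IsOpen (Om G) := by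
  have h : Om G = (⋂ i, {x : Eu ι | |x i| < 1}) ∩
      ⋂ i, ⋂ j, {x : Eu ι | G.Adj i j → |x i| + |x j| < 1} := by
    ext x
    simp only [Om, mem_setOf_eq, mem_inter_iff, mem_iInter]
  rw [h]
  refine IsOpen.inter (isOpen_iInter_of_finite fun i => isOpen_lt (cont_co i) continuous_const)
    (isOpen_iInter_of_finite fun i => isOpen_iInter_of_finite fun j => ?_)
  by_cases hij : G.Adj i j
  · simp only [hij, forall_const]
    exact isOpen_lt ((cont_co i).add (cont_co j)) continuous_const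
  · simp only [hij, false_imp_iff, setOf_true, isOpen_univ]

lemma abs_comb (a b u v : ℝ) (ha : 0 ≤ a) (hb : 0 ≤ b) :
    |a * u + b * v| ≤ a * |u| + b * |v| := by
  refine (abs_add_le _ _).trans (le_of_eq ?_)
  rw [abs_mul, abs_mul, abs_of_nonneg ha, abs_of_nonneg hb]

lemma comb_lt {a b u v : ℝ} (ha : 0 ≤ a) (hb : 0 ≤ b) (hab : a + b = 1) (hu : u < 1)
    (hv : v < 1) : a * u + b * v < 1 := by
  have h := (convex_Iio (1 : ℝ)) hu hv ha hb hab
  simpa only [smul_eq_mul, mem_Iio] using h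

lemma om_convex (G : SimpleGraph ι) : Convex ℝ (Om G) := by
  intro x hx y hy a b ha hb hab
  have hc : ∀ i, (a • x + b • y) i = a * x i + b * y i := fun i => rfl
  refine ⟨fun i => ?_, fun i j hij => ?_⟩
  · rw [hc]
    exact (abs_comb _ _ _ _ ha hb).trans_lt (comb_lt ha hb hab (hx.1 i) (hy.1 i))
  · rw [hc, hc]
    have h1 := abs_comb a b (x i) (y i) ha hb
    have h2 := abs_comb a b (x j) (y j) ha hb
    have h3 := comb_lt ha hb hab (hx.2 i j hij) (hy.2 i j hij)
    nlinarith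

lemma om_bounded (G : SimpleGraph ι) : Bornology.IsBounded (Om G) := by
  rw [Metric.isBounded_iff_subset_closedBall (0 : Eu ι)]
  refine ⟨√(Fintype.card ι), fun x hx => ?_⟩
  rw [mem_closedBall_zero_iff, EuclideanSpace.norm_eq]
  apply Real.sqrt_le_sqrt
  have h : ∀ i ∈ (Finset.univ : Finset ι), ‖x i‖ ^ 2 ≤ (1 : ℝ) := by
    intro i _
    have h1 := hx.1 i
    rw [Real.norm_eq_abs]
    nlinarith [abs_nonneg (x i)]
  refine (Finset.sum_le_sum h).trans (le_of_eq ?_)
  rw [Finset.sum_const, Finset.card_univ, nsmul_eq_mul, mul_one]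

lemma body_mem (G : SimpleGraph ι) (x : Eu ι) : ab x ∈ Up G ↔
    (∀ i, |x i| ≤ 1) ∧ ∀ i j, G.Adj i j → |x i| + |x j| ≤ 1 := by
  constructor
  · rintro ⟨h1, h2⟩
    exact ⟨fun i => (h1 i).2, fun i j hij => h2 i j hij⟩
  · rintro ⟨h1, h2⟩
    exact ⟨fun i => ⟨abs_nonneg _, h1 i⟩, fun i j hij => h2 i j hij⟩

lemma body_diff (G : SimpleGraph ι) :
    {x : Eu ι | ab x ∈ Up G} \ Om G ⊆ frontier (Om G) := by
  rintro x ⟨hx, hx'⟩
  rw [(om_open G).frontier_eq]
  refine ⟨?_, hx'⟩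
  obtain ⟨h1, h2⟩ := (body_mem G x).1 hx
  have ht : Tendsto (fun t : ℝ => t • x) (𝓝[<] 1) (𝓝 x) := by
    have h3 : Tendsto (fun t : ℝ => t • x) (𝓝 1) (𝓝 ((1 : ℝ) • x)) :=
      (continuous_id.smul continuous_const).continuousAt
    rw [one_smul] at h3
    exact h3.mono_left nhdsWithin_le_nhds
  refine mem_closure_of_tendsto ht ?_
  have h4 : ∀ᶠ t : ℝ in 𝓝[<] 1, 0 < t :=
    nhdsWithin_le_nhds (lt_mem_nhds zero_lt_one)
  filter_upwards [h4, self_mem_nhdsWithin] with t ht0 ht1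
  have ht1' : t < 1 := ht1
  have hc : ∀ i, |(t • x) i| = t * |x i| := by
    intro i
    have : (t • x) i = t * x i := rfl
    rw [this, abs_mul, abs_of_pos ht0]
  refine ⟨fun i => ?_, fun i j hij => ?_⟩
  · rw [hc]
    nlinarith [h1 i]
  · rw [hc, hc]
    nlinarith [h2 i j hij]

theorem opn : S_OPN := by
  intro ι _ G
  refine ⟨⟨om_open G, om_convex G, om_bounded G, ?_, ?_⟩, ?_⟩
  · refine ⟨fun i => ?_, fun i j _ => ?_⟩
    · show |(0 : ℝ)| < 1
      norm_num
    · show |(0 : ℝ)| + |(0 : ℝ)| < 1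
      norm_num
  · intro x hx
    have hc : ∀ i, |(-x) i| = |x i| := fun i => abs_neg (x i)
    exact ⟨fun i => by rw [hc]; exact hx.1 i, fun i j hij => by rw [hc, hc]; exact hx.2 i j hij⟩
  · intro g
    have hsub : Om G ⊆ {x : Eu ι | ab x ∈ Up G} := fun x hx =>
      (body_mem G x).2 ⟨fun i => (hx.1 i).le, fun i j hij => (hx.2 i j hij).le⟩
    have hnull : volume ({x : Eu ι | ab x ∈ Up G} \ Om G) = 0 :=
      measure_mono_null (body_diff G) ((om_convex G).addHaar_frontier volume)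
    have hae : Om G =ᵐ[volume] {x : Eu ι | ab x ∈ Up G} :=
      (HasSubset.Subset.eventuallyLE hsub).antisymm (ae_le_set.2 hnull)
    unfold EV
    rw [Measure.restrict_congr_set hae, measure_congr hae]

end Pool.Agent.Q256.BG
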